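import Pool.Agent.helper88.T7.SpecR7
import Pool.Agent.helper85.T7.Defs

set_option autoImplicit false

namespace Pool.Agent.T7

open Finset NumberField Pool.Agent.helper3.FT Pool.Agent.helper47.RA Pool.Agent.T5 Pool.Agent.T6
open scoped nonZeroDivisors

theorem ZTA_mono {φ ψ : ∀ D : ℤ, Fld D → ℝ} (N : ℝ)
    (h : ∀ D ∈ DN N, ∀ E : Fld D, E.Q.D < 0 → φ D E ≤ ψ D E) : TD7 φ N ≤ TD7 ψ N := by
  refine Finset.sum_le_sum fun D hD => ?_
  obtain ⟨E, hE, -, -, hQ, hD0, -⟩ := ZL_fld N D hD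
  rw [hE φ, hE ψ]
  exact h D hD E (by rw [hQ]; exact hD0)

theorem ZTA_add {φ ψ : ∀ D : ℤ, Fld D → ℝ} (N : ℝ) :
    TD7 (fun D E => φ D E + ψ D E) N = TD7 φ N + TD7 ψ N := by
  rw [TD7, TD7, TD7, ← Finset.sum_add_distrib]
  refine Finset.sum_congr rfl fun D hD => ?_
  obtain ⟨E, hE, -⟩ := ZL_fld N D hD
  rw [hE, hE φ, hE ψ]

/-- one field: the ideals of `PA7` are not exceptional -/
theorem ZTA_PA {K : Type} [Field K] [NumberField K] (Q : QF K) (A K₀ Y : ℝ) (hY : 0 < Y) (hK : 0 < K₀)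
    (hA : 2 * K₀ ≤ A) : (PA7 Q A Y).ncard + (EX Q Y (K₀ * Y)).ncard ≤ (IA K Y).ncard := by
  have hfin : (IA K Y).Finite := SFA.1 K Y
  have h1 : PA7 Q A Y ⊆ IA K Y := fun a ha => ha.1
  have h2 : EX Q Y (K₀ * Y) ⊆ IA K Y := fun a ha => ha.1
  have hdis : Disjoint (PA7 Q A Y) (EX Q Y (K₀ * Y)) := by
    rw [Set.disjoint_left]
    rintro a ⟨ha, ha'⟩ ⟨-, α, hα, hα0, hle⟩
    have h3 := ha' α hα hα0
    have h4 : Y / 2 < (Ideal.absNorm a : ℝ) := ha.2.2.2.2.1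
    have h5 : (0 : ℝ) < (Ideal.absNorm a : ℝ) := by linarith
    have h6 : (Ideal.absNorm a : ℝ) ^ 2 * (K₀ * Y) ≤ (Ideal.absNorm a : ℝ) ^ 2 * (K₀ * (2 * Ideal.absNorm a)) := by
      refine mul_le_mul_of_nonneg_left ?_ (by positivity)
      exact mul_le_mul_of_nonneg_left (by linarith) hK.le
    have h7 : (Ideal.absNorm a : ℝ) ^ 2 * (K₀ * (2 * Ideal.absNorm a)) = 2 * K₀ * (Ideal.absNorm a : ℝ) ^ 3 := by ring
    have h8 : 2 * K₀ * (Ideal.absNorm a : ℝ) ^ 3 ≤ A * (Ideal.absNorm a : ℝ) ^ 3 :=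
      mul_le_mul_of_nonneg_right hA (by positivity)
    linarith
  rw [← Set.ncard_union_eq hdis (hfin.subset h1) (hfin.subset h2)]
  exact Set.ncard_le_ncard (Set.union_subset h1 h2) hfin

theorem ZTA_P (N A K₀ Y : ℝ) (hY : 0 < Y) (hK : 0 < K₀) (hA : 2 * K₀ ≤ A) :
    TD7 (fP A Y) N ≤ ∑ D ∈ DN N, ((cA D Y : ℝ) - (cE D Y (K₀ * Y) : ℝ)) := by
  refine Finset.sum_le_sum fun D hD => ?_
  obtain ⟨E, hE, hcA, hcE, -⟩ := ZL_fld N D hD
  rw [hE, hcA, hcE, fP]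
  have h := ZTA_PA E.Q A K₀ Y hY hK hA
  have h' : ((PA7 E.Q A Y).ncard : ℝ) + ((EX E.Q Y (K₀ * Y)).ncard : ℝ) ≤ ((IA E.K Y).ncard : ℝ) := by
    exact_mod_cast h
  linarith

/-- one field: iteration of ZCP -/
theorem ZTA_U (h3 : ZCP_stmt) (N A Y : ℝ) (hY : 0 < Y) (J : ℕ) :
    TD7 (fU A Y) N ≤ ∑ j ∈ range J, TD7 (fP A (Y / 2 ^ j)) N + TD7 (fU A (Y / 2 ^ J)) N := by
  induction J with
  | zero => simp
  | succ J ih =>
    have h1 : TD7 (fU A (Y / 2 ^ J)) N ≤ TD7 (fP A (Y / 2 ^ J)) N + TD7 (fU A (Y / 2 ^ (J + 1))) N := by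
      rw [← ZTA_add]
      refine ZTA_mono N fun D _ E hE => ?_
      have h := (h3 E.K E.Q E.fin hE A (Y / 2 ^ J) (by positivity)).1
      have e : Y / 2 ^ J / 2 = Y / 2 ^ (J + 1) := by
        rw [pow_succ, div_div]
      rw [e] at h
      simp only [fU, fP]
      exact_mod_cast h
    rw [Finset.sum_range_succ]
    linarith

theorem ZTA_UC (N A Y : ℝ) : TD7 (fU A Y) N ≤ TD7 (fC Y) N := by
  refine ZTA_mono N fun D _ E _ => ?_
  simp only [fU, fC]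
  have h1 : CU7 E.K A Y ⊆ CLS E.K Y := fun c hc => hc.1
  exact_mod_cast Set.ncard_le_ncard h1 (Set.toFinite _)

theorem ZTA_CNU (N B Y : ℝ) : TD7 (fC Y) N ≤ TD7 (fN B Y) N + TD7 (fU B Y) N := by
  rw [← ZTA_add]
  refine ZTA_mono N fun D _ E _ => ?_
  simp only [fU, fC, fN]
  have h1 : CLS E.K Y ⊆ NR7 E.K B Y ∪ CU7 E.K B Y := by
    intro c hc
    rcases le_or_gt (mu (c ^ 2) : ℝ) (B * (mu c : ℝ)) with h | h
    · exact Or.inl ⟨hc, h⟩
    · exact Or.inr ⟨hc, h⟩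
  have h2 := (Set.ncard_le_ncard h1 (Set.toFinite _)).trans (Set.ncard_union_le _ _)
  exact_mod_cast h2

theorem ZTA_CO (N Y : ℝ) : TD7 (fC Y) N ≤ TD7 fO N := by
  refine ZTA_mono N fun D _ E _ => ?_
  simp only [fO, fC]
  have h1 : CLS E.K Y ⊆ ORD7 E.K := fun c hc => ⟨hc.1, hc.2.1⟩
  exact_mod_cast Set.ncard_le_ncard h1 (Set.toFinite _)

theorem ZTA_c0 : 0 ≤ c0 := by
  unfold c0
  have h1 : (1 : ℝ) ≤ √2 := by
    rw [Real.one_le_sqrt]
    norm_num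
  have h2 : 1 / √2 ≤ 1 := by
    rw [div_le_one (by linarith)]
    exact h1
  have h3 : 0 ≤ 1 - 1 / √2 := by linarith
  have := Real.pi_pos
  positivity

theorem ZTA (h1 : SLU7_stmt) (h2 : ZNB_stmt) (h3 : ZCP_stmt) (h4 : ZSM_stmt) : ZTA_stmt := by
  obtain ⟨δ₀, hδ₀, h1⟩ := h1
  obtain ⟨K₀, κ₀, N₁, hK₀, hκ₀, h1⟩ := h1 1 one_pos
  obtain ⟨δ₁, C₁, hδ₁, hC₁, ⟨N₂, h2⟩, h2'⟩ := h2
  obtain ⟨b, hb⟩ : ∃ b : ℕ, 2 * K₀ ≤ 2 ^ b := by
    obtain ⟨b, hb⟩ := pow_unbounded_of_one_lt (2 * K₀) (by norm_num : (1 : ℝ) < 2)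
    exact ⟨b, hb.le⟩
  obtain ⟨N₃, h2'⟩ := h2' b
  obtain ⟨δ, hδ0, hd0, hd1, hd2⟩ : ∃ δ : ℝ, 0 < δ ∧ δ ≤ δ₀ ∧ δ ≤ δ₁ ∧ δ ≤ 1 / 10 :=
    ⟨min δ₀ (min δ₁ (1 / 10)), by positivity, min_le_left _ _, (min_le_right _ _).trans (min_le_left _ _),
      (min_le_right _ _).trans (min_le_right _ _)⟩
  obtain ⟨C₂, hC₂, h4⟩ := h4 (δ / 8) (by positivity)
  have hc0 := ZTA_c0
  have ev1 : ∀ᶠ N : ℝ in Filter.atTop, C₂ ≤ N ^ (δ / 2) :=
    (tendsto_rpow_atTop (by positivity)).eventually (Filter.eventually_ge_atTop _)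
  have ev2 : ∀ᶠ N : ℝ in Filter.atTop, 2 ≤ N ^ (1 / 2 - δ) :=
    (tendsto_rpow_atTop (by linarith)).eventually (Filter.eventually_ge_atTop _)
  obtain ⟨N₄, hN₄⟩ := Filter.eventually_atTop.1 (ev1.and ev2)
  have hCκ : 0 < C₁ / κ₀ := by positivity
  refine ⟨δ / 4, C₁ * ((b : ℝ) + 1) + 2 * (c0 + 1) + 1 + C₁ / κ₀, max (max N₁ N₂) (max (max N₃ N₄) 1), by positivity,
    by linarith, ?_, fun N Y hN hY hY' => ?_⟩
  · have : 0 < C₁ * ((b : ℝ) + 1) := by positivity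
    linarith
  have n1 : N₁ ≤ N := ((le_max_left _ _).trans (le_max_left _ _)).trans hN
  have n2 : N₂ ≤ N := ((le_max_right _ _).trans (le_max_left _ _)).trans hN
  have n3 : N₃ ≤ N := (((le_max_left _ _).trans (le_max_left _ _)).trans (le_max_right _ _)).trans hN
  have n4 : N₄ ≤ N := (((le_max_right _ _).trans (le_max_left _ _)).trans (le_max_right _ _)).trans hN
  have n5 : 1 ≤ N := ((le_max_right _ _).trans (le_max_right _ _)).trans hN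
  have hN0 : 0 < N := by linarith
  have hs0 : 0 < √N := Real.sqrt_pos.mpr hN0
  have hY0 : 0 < Y := (Real.rpow_pos_of_pos hN0 _).trans_le hY
  have hYN : 0 < Y * √N := by positivity
  have hsN : √N * √N = N := Real.mul_self_sqrt hN0.le
  obtain ⟨e1, e2⟩ := hN₄ N n4
  have hYδ : N ^ (1 / 2 - δ) ≤ Y :=
    (Real.rpow_le_rpow_of_exponent_le n5 (by linarith)).trans hY
  have hCb : 0 ≤ C₁ * ((b : ℝ) + 1) * (Y * √N) := by positivity
  have hCk : 0 ≤ C₁ / κ₀ * (Y * √N) := by positivity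
  have hcc : 0 ≤ 2 * (c0 + 1) * (Y * √N) := by positivity
  rcases le_or_gt Y (κ₀ * √N) with hc | hc
  · -- the main case
    have a1 : TD7 (fN (2 ^ b) Y) N ≤ C₁ * ((b : ℝ) + 1) * (Y * √N) :=
      (h2' N Y n3 ((Real.rpow_le_rpow_of_exponent_le n5 (by linarith)).trans hYδ) hY').1
    have hq : 0 < N ^ (1 / 2 - δ) := Real.rpow_pos_of_pos hN0 _
    obtain ⟨n, hn1, hn2⟩ := exists_nat_pow_near (x := Y / N ^ (1 / 2 - δ)) (y := 2)
      (by rw [le_div_iff₀ hq]; linarith) (by norm_num : (1 : ℝ) < 2)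
    rw [le_div_iff₀ hq] at hn1
    rw [div_lt_iff₀ hq] at hn2
    have b1 : ∀ j ∈ range (n + 1), N ^ (1 / 2 - δ) ≤ Y / 2 ^ j := by
      intro j hj
      rw [le_div_iff₀ (by positivity), mul_comm]
      refine le_trans ?_ hn1
      refine mul_le_mul_of_nonneg_right ?_ hq.le
      exact pow_le_pow_right₀ (by norm_num) (by rw [Finset.mem_range] at hj; omega)
    have b2 : Y / 2 ^ (n + 1) ≤ N ^ (1 / 2 - δ) := by
      rw [div_le_iff₀ (by positivity), mul_comm]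
      exact hn2.le
    have b3 : 1 ≤ Y / 2 ^ (n + 1) := by
      rw [le_div_iff₀ (by positivity), one_mul, pow_succ]
      calc (2 : ℝ) ^ n * 2 ≤ 2 ^ n * N ^ (1 / 2 - δ) := mul_le_mul_of_nonneg_left e2 (by positivity)
        _ ≤ Y := hn1
    -- the dyadic pieces
    have c1 : ∑ j ∈ range (n + 1), TD7 (fP (2 ^ b) (Y / 2 ^ j)) N ≤ 2 * (c0 + 1) * (Y * √N) := by
      calc ∑ j ∈ range (n + 1), TD7 (fP (2 ^ b) (Y / 2 ^ j)) N
          ≤ ∑ j ∈ range (n + 1), (c0 + 1) * (Y * √N) * (1 / 2 ^ j) := by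
            refine Finset.sum_le_sum fun j hj => ?_
            have h5 : (1 : ℝ) ≤ 2 ^ j := one_le_pow₀ (by norm_num)
            have h6 := ZTA_P N (2 ^ b) K₀ (Y / 2 ^ j) (by positivity) (by linarith) hb
            have h7 := h1 N (Y / 2 ^ j) n1 ((Real.rpow_le_rpow_of_exponent_le n5 (by linarith)).trans (b1 j hj))
              ((div_le_self hY0.le h5).trans hc)
            refine h6.trans (h7.trans (le_of_eq ?_))
            ring
        _ = (c0 + 1) * (Y * √N) * ∑ j ∈ range (n + 1), (1 : ℝ) / 2 ^ j := by rw [Finset.mul_sum]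
        _ ≤ (c0 + 1) * (Y * √N) * 2 := mul_le_mul_of_nonneg_left (ZL_geo (n + 1)) (by positivity)
        _ = 2 * (c0 + 1) * (Y * √N) := by ring
    -- the small term
    have c2 : TD7 (fC (Y / 2 ^ (n + 1))) N ≤ Y * √N := by
      have hYle : Y / 2 ^ (n + 1) ≤ N := by
        refine b2.trans ?_
        calc N ^ (1 / 2 - δ) ≤ N ^ (1 : ℝ) := Real.rpow_le_rpow_of_exponent_le n5 (by linarith)
          _ = N := Real.rpow_one N
      have hp : 0 < Y / 2 ^ (n + 1) := by positivity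
      have hsq : √N = N ^ (1 / 2 : ℝ) := Real.sqrt_eq_rpow N
      have hNN : (N * N) ^ (δ / 8) = N ^ (δ / 4) := by
        rw [Real.mul_rpow hN0.le hN0.le, ← Real.rpow_add hN0]
        ring_nf
      calc TD7 (fC (Y / 2 ^ (n + 1))) N ≤ C₂ * (N * (Y / 2 ^ (n + 1))) ^ (δ / 8) * (Y / 2 ^ (n + 1) * √N) :=
            h4 N (Y / 2 ^ (n + 1)) n5 b3
        _ ≤ N ^ (δ / 2) * (N * N) ^ (δ / 8) * (N ^ (1 / 2 - δ) * √N) := by
            refine mul_le_mul (mul_le_mul e1 ?_ (by positivity) (by positivity)) ?_ (by positivity) (by positivity)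
            · exact Real.rpow_le_rpow (by positivity) (mul_le_mul_of_nonneg_left hYle hN0.le) (by positivity)
            · exact mul_le_mul_of_nonneg_right b2 hs0.le
        _ = N ^ (1 / 2 - δ / 4) * √N := by
            rw [hNN, ← mul_assoc, ← Real.rpow_add hN0, ← Real.rpow_add hN0]
            ring_nf
        _ ≤ Y * √N := mul_le_mul_of_nonneg_right hY hs0.le
    calc TD7 (fC Y) N ≤ TD7 (fN (2 ^ b) Y) N + TD7 (fU (2 ^ b) Y) N := ZTA_CNU N (2 ^ b) Y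
      _ ≤ C₁ * ((b : ℝ) + 1) * (Y * √N) + (∑ j ∈ range (n + 1), TD7 (fP (2 ^ b) (Y / 2 ^ j)) N +
            TD7 (fU (2 ^ b) (Y / 2 ^ (n + 1))) N) := add_le_add a1 (ZTA_U h3 N (2 ^ b) Y hY0 (n + 1))
      _ ≤ C₁ * ((b : ℝ) + 1) * (Y * √N) + (2 * (c0 + 1) * (Y * √N) + Y * √N) :=
            add_le_add le_rfl (add_le_add c1 ((ZTA_UC N (2 ^ b) (Y / 2 ^ (n + 1))).trans c2))
      _ ≤ (C₁ * ((b : ℝ) + 1) + 2 * (c0 + 1) + 1 + C₁ / κ₀) * (Y * √N) := by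
            rw [add_mul, add_mul, add_mul]
            linarith
  · calc TD7 (fC Y) N ≤ TD7 fO N := ZTA_CO N Y
      _ ≤ C₁ * N := h2 N n2
      _ = C₁ / κ₀ * (κ₀ * √N * √N) := by
          rw [mul_assoc κ₀, hsN]
          field_simp
      _ ≤ C₁ / κ₀ * (Y * √N) :=
          mul_le_mul_of_nonneg_left (mul_le_mul_of_nonneg_right hc.le hs0.le) hCκ.le
      _ ≤ (C₁ * ((b : ℝ) + 1) + 2 * (c0 + 1) + 1 + C₁ / κ₀) * (Y * √N) := by
          rw [add_mul, add_mul, add_mul]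
          linarith

end Pool.Agent.T7
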